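import Pool.Agent.Helper19K9.Ds.Main
import Pool.Agent.Helper19K9.Fb.Borel

/-!
Almost all real numbers and their rational approximations, uniformly in a second point of small
height.
-/

set_option autoImplicit false
set_option linter.all false
set_option maxHeartbeats 4000000

namespace Pool.Agent.Helper19K9.Ds

open MeasureTheory Pool.Agent.Helper19K9.Fb

/-- the pairs with `2 ^ k ≤ ht x < 2 ^ (k + 1)` -/
def Ek (Y : ℤ × ℤ → Prop) (δ : ℝ) (Bad : ℤ × ℤ → ℤ × ℤ → Prop) (k : ℕ) :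
    Set ((ℤ × ℤ) × (ℤ × ℤ)) :=
  {q | IsCoprime q.1.1 q.1.2 ∧ IsCoprime q.2.1 q.2.2 ∧ Y q.2 ∧ (ht q.2 : ℝ) ≤ (ht q.1 : ℝ) ^ δ ∧
    Bad q.1 q.2 ∧ Nat.log 2 (ht q.1) = k}

lemma Ek_ht {Y : ℤ × ℤ → Prop} {δ : ℝ} (hδ : 0 < δ) {Bad : ℤ × ℤ → ℤ × ℤ → Prop} {k : ℕ}
    {q : (ℤ × ℤ) × (ℤ × ℤ)} (hq : q ∈ Ek Y δ Bad k) :
    ht q.2 ≤ ⌊((2 : ℝ) ^ (k + 1)) ^ δ⌋₊ := by
  refine Nat.le_floor (hq.2.2.2.1.trans (Real.rpow_le_rpow (by positivity) ?_ hδ.le))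
  exact_mod_cast (log_bd hq.1 hq.2.2.2.2.2).2

lemma Ek_fin (Y : ℤ × ℤ → Prop) {δ : ℝ} (hδ : 0 < δ) (Bad : ℤ × ℤ → ℤ × ℤ → Prop) (k : ℕ) :
    (Ek Y δ Bad k).Finite := by
  refine (((bx (2 ^ (k + 1))) ×ˢ (bx ⌊((2 : ℝ) ^ (k + 1)) ^ δ⌋₊) :
    Finset ((ℤ × ℤ) × (ℤ × ℤ))).finite_toSet).subset ?_
  intro q hq
  rw [Finset.mem_coe, Finset.mem_product, mem_bx, mem_bx]
  exact ⟨(log_bd hq.1 hq.2.2.2.2.2).2, Ek_ht hδ hq⟩

theorem Ek_card {Y : ℤ × ℤ → Prop} {Λ δ : ℝ} (hδ : 0 < δ) (hδΛ : δ ≤ Λ)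
    {Bad : ℤ × ℤ → ℤ × ℤ → Prop} {c C : ℝ}
    (hC : 0 < C) (h : ∀ B : ℕ, 1 ≤ B → ∀ y : ℤ × ℤ, IsCoprime y.1 y.2 → Y y →
      (ht y : ℝ) ≤ (B : ℝ) ^ Λ → ((fset B (fun x => Bad x y)).ncard : ℝ) ≤
        C * (B : ℝ) ^ ((2 : ℝ) - c)) (k : ℕ) :
    (((Ek_fin Y hδ Bad k).toFinset.card : ℕ) : ℝ) ≤
      (9 * (((2 : ℝ) ^ (k + 1)) ^ δ) ^ (2 : ℝ)) * (C * ((2 : ℝ) ^ (k + 1)) ^ ((2 : ℝ) - c)) := by
  classical
  set E := (Ek_fin Y hδ Bad k).toFinset with hE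
  rw [Finset.card_eq_sum_card_image (fun q => q.2) E]
  push_cast
  have h21 : (1 : ℝ) ≤ (2 : ℝ) ^ (k + 1) := one_le_pow₀ (by norm_num)
  have hy : ∀ y ∈ E.image (fun q => q.2), (((E.filter fun q => q.2 = y).card : ℕ) : ℝ) ≤
      C * ((2 : ℝ) ^ (k + 1)) ^ ((2 : ℝ) - c) := by
    intro y hy
    rw [Finset.mem_image] at hy
    obtain ⟨q, hq, hqy⟩ := hy
    rw [hE, Set.Finite.mem_toFinset] at hq
    obtain ⟨h1, h2, h3, h4, h5, h6⟩ := hq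
    have hb := h (2 ^ (k + 1)) (Nat.one_le_two_pow) y (hqy ▸ h2) (hqy ▸ h3) (by
      rw [← hqy]
      push_cast
      refine h4.trans ((Real.rpow_le_rpow (by positivity) (?_ : (ht q.1 : ℝ) ≤ 2 ^ (k + 1))
        hδ.le).trans (Real.rpow_le_rpow_of_exponent_le h21 hδΛ))
      exact_mod_cast (log_bd h1 h6).2)
    push_cast at hb
    refine le_trans ?_ hb
    have : (E.filter fun q => q.2 = y).card ≤ (fset (2 ^ (k + 1)) (fun x => Bad x y)).ncard := by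
      rw [← Set.ncard_coe_finset]
      refine Set.ncard_le_ncard_of_injOn (fun q => q.1) ?_ ?_ (fset_finite _ _)
      · intro q hq
        rw [Finset.mem_coe, Finset.mem_filter, hE, Set.Finite.mem_toFinset] at hq
        obtain ⟨⟨g1, g2, g3, g4, g5, g6⟩, g8⟩ := hq
        exact ⟨(log_bd g1 g6).2, g1, g8 ▸ g5⟩
      · intro q hq q' hq' hqq
        rw [Finset.mem_coe, Finset.mem_filter] at hq hq'
        exact Prod.ext hqq (hq.2.trans hq'.2.symm)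
    exact_mod_cast this
  set M : ℕ := ⌊((2 : ℝ) ^ (k + 1)) ^ δ⌋₊ with hM
  have hM1 : 1 ≤ M := by
    rw [hM, Nat.one_le_floor_iff]
    exact Real.one_le_rpow h21 hδ.le
  have hM2 : (M : ℝ) ≤ ((2 : ℝ) ^ (k + 1)) ^ δ := Nat.floor_le (by positivity)
  have hcard : (((E.image (fun q => q.2)).card : ℕ) : ℝ) ≤
      9 * (((2 : ℝ) ^ (k + 1)) ^ δ) ^ (2 : ℝ) := by
    have h1 : (E.image (fun q => q.2)).card ≤ (bx M).card := by
      refine Finset.card_le_card fun y hy => ?_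
      rw [Finset.mem_image] at hy
      obtain ⟨q, hq, hqy⟩ := hy
      rw [hE, Set.Finite.mem_toFinset] at hq
      rw [← hqy, mem_bx]
      exact Ek_ht hδ hq
    have h2 := card_bx M hM1
    have h3 : (((E.image (fun q => q.2)).card : ℕ) : ℝ) ≤ (bx M).card := by exact_mod_cast h1
    refine h3.trans (h2.trans (mul_le_mul_of_nonneg_left ?_ (by norm_num)))
    exact Real.rpow_le_rpow (by positivity) hM2 (by norm_num)
  calc ∑ y ∈ E.image (fun q => q.2), (((E.filter fun q => q.2 = y).card : ℕ) : ℝ)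
      ≤ ∑ y ∈ E.image (fun q => q.2), C * ((2 : ℝ) ^ (k + 1)) ^ ((2 : ℝ) - c) :=
        Finset.sum_le_sum hy
    _ = ((E.image (fun q => q.2)).card : ℝ) * (C * ((2 : ℝ) ^ (k + 1)) ^ ((2 : ℝ) - c)) := by
        rw [Finset.sum_const, nsmul_eq_mul]
    _ ≤ _ := mul_le_mul_of_nonneg_right hcard (by positivity)

/-- **Counts in the fibres give finiteness for almost all real numbers.** -/
theorem borel1 {Y : ℤ × ℤ → Prop} {Λ δ : ℝ} (hδ : 0 < δ) (hδΛ : δ ≤ Λ) (hδ2 : δ ≤ 2)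
    {Bad : ℤ × ℤ → ℤ × ℤ → Prop} {c C : ℝ}
    (hC : 0 < C) (h : ∀ B : ℕ, 1 ≤ B → ∀ y : ℤ × ℤ, IsCoprime y.1 y.2 → Y y →
      (ht y : ℝ) ≤ (B : ℝ) ^ Λ → ((fset B (fun x => Bad x y)).ncard : ℝ) ≤
        C * (B : ℝ) ^ ((2 : ℝ) - c)) (hδc : 4 * δ ≤ c) {a : ℝ} (ha : 0 < a) :
    ∀ᵐ ξ : ℝ, {q : (ℤ × ℤ) × (ℤ × ℤ) | IsCoprime q.1.1 q.1.2 ∧ IsCoprime q.2.1 q.2.2 ∧
      Y q.2 ∧ (ht q.2 : ℝ) ≤ (ht q.1 : ℝ) ^ δ ∧ Bad q.1 q.2 ∧
      Pool.Agent.Helper19K9.Fb.near a δ ξ q.1}.Finite := by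
  classical
  set A : ℕ → Set ℝ := fun k => ⋃ q ∈ (Ek_fin Y hδ Bad k).toFinset, ball a δ q.1 with hA
  set K : ℝ := 9 * 2 ^ (2 * δ) * (C * 2 ^ ((2 : ℝ) - c)) * (2 * a) with hK
  have hK0 : 0 < K := by positivity
  have hvol : ∀ k : ℕ, volume (A k) ≤ ENNReal.ofReal (K * ((2 : ℝ) ^ (-δ)) ^ k) := by
    intro k
    have step1 : volume (A k) ≤ ∑ q ∈ (Ek_fin Y hδ Bad k).toFinset,
        ENNReal.ofReal (2 * a * ((2 : ℝ) ^ k) ^ (-2 + δ)) := by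
      refine (measure_biUnion_finset_le _ _).trans (Finset.sum_le_sum fun q hq => ?_)
      rw [Set.Finite.mem_toFinset] at hq
      exact ball_vol ha hδ2 hq.1 hq.2.2.2.2.2
    refine step1.trans ?_
    rw [Finset.sum_const, nsmul_eq_mul, ← ENNReal.ofReal_natCast,
      ← ENNReal.ofReal_mul (by positivity)]
    refine ENNReal.ofReal_le_ofReal ?_
    have hcard := Ek_card hδ hδΛ hC h k
    refine (mul_le_mul_of_nonneg_right hcard (by positivity)).trans ?_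
    have two : (0 : ℝ) < 2 := by norm_num
    have e1 : ∀ (n : ℕ) (t : ℝ), ((2 : ℝ) ^ n) ^ t = 2 ^ ((n : ℝ) * t) := by
      intro n t
      rw [← Real.rpow_natCast 2 n, ← Real.rpow_mul two.le]
    have e2 : ((2 : ℝ) ^ (-δ)) ^ k = 2 ^ (-δ * k) := by
      rw [← Real.rpow_natCast, ← Real.rpow_mul two.le]
    rw [e1, ← Real.rpow_mul two.le, e1, e1, e2, hK]
    have lhs : 9 * (2 : ℝ) ^ (((k + 1 : ℕ) : ℝ) * δ * 2) * (C * 2 ^ (((k + 1 : ℕ) : ℝ) * (2 - c))) *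
        (2 * a * 2 ^ ((k : ℝ) * (-2 + δ))) =
        9 * 2 ^ (2 * δ) * (C * 2 ^ ((2 : ℝ) - c)) * (2 * a) * 2 ^ ((k : ℝ) * (3 * δ - c)) := by
      have g1 : (2 : ℝ) ^ (((k + 1 : ℕ) : ℝ) * δ * 2) = 2 ^ ((k : ℝ) * (2 * δ)) * 2 ^ (2 * δ) := by
        rw [← Real.rpow_add two]; congr 1; push_cast; ring
      have g2 : (2 : ℝ) ^ (((k + 1 : ℕ) : ℝ) * (2 - c)) =
          2 ^ ((k : ℝ) * (2 - c)) * 2 ^ ((2 : ℝ) - c) := by
        rw [← Real.rpow_add two]; congr 1; push_cast; ring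
      have g3 : (2 : ℝ) ^ ((k : ℝ) * (3 * δ - c)) =
          2 ^ ((k : ℝ) * (2 * δ)) * 2 ^ ((k : ℝ) * (2 - c)) * 2 ^ ((k : ℝ) * (-2 + δ)) := by
        rw [← Real.rpow_add two, ← Real.rpow_add two]; congr 1; ring
      rw [g1, g2, g3]; ring
    rw [lhs]
    refine mul_le_mul_of_nonneg_left ?_ hK0.le
    refine Real.rpow_le_rpow_of_exponent_le (by norm_num) ?_
    have hk0 : (0 : ℝ) ≤ k := by positivity
    nlinarith
  have hsum : ∑' i, volume (A i) ≠ ⊤ := by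
    have hr0 : 0 ≤ (2 : ℝ) ^ (-δ) := by positivity
    have hr1 : (2 : ℝ) ^ (-δ) < 1 := Real.rpow_lt_one_of_one_lt_of_neg (by norm_num) (by linarith)
    have hs : Summable fun k : ℕ => K * ((2 : ℝ) ^ (-δ)) ^ k :=
      (summable_geometric_of_lt_one hr0 hr1).mul_left K
    exact ne_top_of_le_ne_top hs.tsum_ofReal_ne_top (ENNReal.tsum_le_tsum hvol)
  filter_upwards [ae_finite_setOfPred_mem hsum] with ξ hξ
  refine (hξ.biUnion (fun i _ => Ek_fin Y hδ Bad i)).subset ?_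
  rintro q ⟨h1, h2, h3, h4, h5, h6⟩
  rw [Set.mem_iUnion₂]
  have hq : q ∈ Ek Y δ Bad (Nat.log 2 (ht q.1)) := ⟨h1, h2, h3, h4, h5, rfl⟩
  refine ⟨Nat.log 2 (ht q.1), ?_, hq⟩
  show ξ ∈ A _
  rw [hA]
  simp only [Set.mem_iUnion, exists_prop]
  refine ⟨q, ?_, ?_⟩
  · rw [Set.Finite.mem_toFinset]; exact hq
  · rw [ball, Metric.mem_closedBall, Real.dist_eq]; exact h6.2

end Pool.Agent.Helper19K9.Ds
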