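import Pool.Agent.Helper19K9.Ds.Ae

/-!
The inequality for the rational approximations of almost all real numbers and all members of a
family.
-/

set_option autoImplicit false
set_option linter.all false
set_option maxHeartbeats 4000000

namespace Pool.Agent.Helper19K9.Ds

open NumberField MvPolynomial Pool.Agent.TH910.Voj Pool.Agent.Helper19K9.Sq Pool.Agent.H813R3.Voj
  Pool.Agent.Helper19K9.Fb MeasureTheory

lemma Good.mono {q : ℕ} {S : Finset ℕ} {F : Fin q → MvPolynomial (Fin 4) ℤ} {a b : Fin q → ℕ}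
    {ε ε' : ℝ} (h : ε' ≤ ε) {x y : ℤ × ℤ} (hx : IsCoprime x.1 x.2) (hy : IsCoprime y.1 y.2)
    (hg : Good S F a b ε' x y) : Good S F a b ε x y := by
  refine ⟨hg.1, fun L _ _ J r m e c z hm hc hz => le_trans ?_ (hg.2 L J r m e c z hm hc hz)⟩
  have h1 := nonneg_of_htlog hx
  have h2 := nonneg_of_htlog hy
  have h3 : ε' * (Real.log (ht x) + Real.log (ht y)) ≤ ε * (Real.log (ht x) + Real.log (ht y)) :=
    mul_le_mul_of_nonneg_right h (by linarith)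
  linarith

theorem kum_ae {q : ℕ} (F : Fin q → MvPolynomial (Fin 4) ℤ) (a b : Fin q → ℕ)
    (hbi : ∀ j, Bi (F j) (a j) (b j)) (hirr : ∀ j, Irreducible (toQ (F j)))
    (hdist : ∀ i j, i ≠ j → ¬ Associated (toQ (F i)) (toQ (F j))) (S : Finset ℕ)
    (hS : ∀ p ∈ S, p.Prime) (ha : ∀ j, 1 ≤ a j) (ha3 : ∀ j, a j ≤ 3) :
    ∃ Z : Set (ℤ × ℤ), Z.Finite ∧ ∃ δ : ℝ → ℝ, (∀ ε, 0 < ε → 0 < δ ε) ∧
      ∀ᵐ ξ : ℝ, ∀ ε A : ℝ, 0 < ε →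
        {q : (ℤ × ℤ) × (ℤ × ℤ) | IsCoprime q.1.1 q.1.2 ∧ IsCoprime q.2.1 q.2.2 ∧
          q.2 ∉ Z ∧ (ht q.2 : ℝ) ≤ (ht q.1 : ℝ) ^ (δ ε) ∧ ¬ Good S F a b ε q.1 q.2 ∧
          Pool.Agent.Helper19K9.Fb.near A (δ ε) ξ q.1}.Finite := by
  classical
  set Λ : ℝ := 1 / (1 + ∑ j, (b j : ℝ)) with hΛ
  have hs0 : 0 ≤ ∑ j, (b j : ℝ) := Finset.sum_nonneg fun j _ => by positivity
  have hΛ0 : 0 < Λ := by rw [hΛ]; positivity
  obtain ⟨Z, hZ, h⟩ := main_kum F a b hbi hirr hdist S hS Λ hΛ0 ha (fun j => by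
    have h1 : (b j : ℝ) ≤ ∑ j, (b j : ℝ) :=
      Finset.single_le_sum (f := fun j => (b j : ℝ)) (fun j _ => by positivity) (Finset.mem_univ j)
    have h2 : (b j : ℝ) * Λ < 1 := by
      rw [hΛ, mul_one_div, div_lt_one (by linarith)]
      linarith
    have h3 : (a j : ℝ) ≤ 3 := by exact_mod_cast ha3 j
    linarith)
  refine ⟨Z, hZ, ?_⟩
  have key : ∀ ε : ℝ, 0 < ε → ∃ δ : ℝ, 0 < δ ∧ ∀ A : ℝ, 0 < A → ∀ᵐ ξ : ℝ,
      {q : (ℤ × ℤ) × (ℤ × ℤ) | IsCoprime q.1.1 q.1.2 ∧ IsCoprime q.2.1 q.2.2 ∧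
          q.2 ∉ Z ∧ (ht q.2 : ℝ) ≤ (ht q.1 : ℝ) ^ δ ∧ ¬ Good S F a b ε q.1 q.2 ∧
          Pool.Agent.Helper19K9.Fb.near A δ ξ q.1}.Finite := by
    intro ε hε
    obtain ⟨c, hc, C, hC, h⟩ := h ε hε
    refine ⟨min Λ (min 2 (c / 4)), lt_min hΛ0 (lt_min (by norm_num) (by linarith)), fun A hA => ?_⟩
    refine borel1 (Y := fun y => y ∉ Z) (Λ := Λ) (c := c) (C := C)
      (Bad := fun x y => ¬ Good S F a b ε x y)
      (lt_min hΛ0 (lt_min (by norm_num) (by linarith))) (min_le_left _ _)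
      ((min_le_right _ _).trans (min_le_left _ _)) hC (fun B hB y hy hyZ hyB => ?_) ?_ hA
    · exact h B hB y ⟨hy, hyZ⟩ hyB
    · have := (min_le_right Λ (min 2 (c / 4))).trans (min_le_right 2 (c / 4))
      linarith
  choose! δ hδ hae using key
  refine ⟨fun ε => δ (1 / ((⌈1 / ε⌉₊ : ℝ) + 1)), fun ε hε => hδ _ (by positivity), ?_⟩
  have hall : ∀ᵐ ξ : ℝ, ∀ n m : ℕ,
      {q : (ℤ × ℤ) × (ℤ × ℤ) | IsCoprime q.1.1 q.1.2 ∧ IsCoprime q.2.1 q.2.2 ∧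
          q.2 ∉ Z ∧ (ht q.2 : ℝ) ≤ (ht q.1 : ℝ) ^ (δ (1 / ((n : ℝ) + 1))) ∧
          ¬ Good S F a b (1 / ((n : ℝ) + 1)) q.1 q.2 ∧
          Pool.Agent.Helper19K9.Fb.near ((m : ℝ) + 1) (δ (1 / ((n : ℝ) + 1))) ξ q.1}.Finite :=
    ae_all_iff.2 fun n => ae_all_iff.2 fun m => hae _ (by positivity) _ (by positivity)
  filter_upwards [hall] with ξ hξ ε A hε
  refine (hξ ⌈1 / ε⌉₊ ⌈A⌉₊).subset ?_
  rintro q ⟨e1, e2, e3, e4, e5, e6⟩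
  have hA1 : A ≤ (⌈A⌉₊ : ℝ) + 1 := (Nat.le_ceil A).trans (by linarith)
  have hle : 1 / ((⌈1 / ε⌉₊ : ℝ) + 1) ≤ ε := by
    rw [div_le_iff₀ (by positivity)]
    have h1 : 1 / ε ≤ ⌈1 / ε⌉₊ := Nat.le_ceil _
    have h2 : ε * (1 / ε) ≤ ε * ⌈1 / ε⌉₊ := mul_le_mul_of_nonneg_left h1 hε.le
    rw [mul_one_div_cancel hε.ne'] at h2
    nlinarith
  refine ⟨e1, e2, e3, e4, fun hg => e5 (hg.mono hle e1 e2), e6.1, e6.2.trans ?_⟩
  exact mul_le_mul_of_nonneg_right hA1 (by positivity)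

end Pool.Agent.Helper19K9.Ds
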