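import Mathlib

/-!
Primes which divide a product of integers exactly once.
-/

set_option autoImplicit false
set_option linter.all false
set_option maxHeartbeats 4000000

namespace Pool.Agent.Helper19K9.Ds

/-- the primes outside `S` which divide `f j` and divide the product exactly once -/
noncomputable def Tj {ι : Type*} [Fintype ι] (S : Finset ℕ) (f : ι → ℤ) (j : ι) : Finset ℕ :=
  (f j).natAbs.primeFactors.filter (fun p => p ∉ S ∧ ¬ (p : ℤ) ^ 2 ∣ ∏ i, f i)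

lemma Tj_spec {ι : Type*} [Fintype ι] [DecidableEq ι] (S : Finset ℕ) (f : ι → ℤ) (j : ι) {ℓ : ℕ}
    (h : ℓ ∈ Tj S f j) : ℓ.Prime ∧ ℓ ∉ S ∧ (ℓ : ℤ) ∣ f j ∧ ∀ i, i ≠ j → ¬ (ℓ : ℤ) ∣ f i := by
  unfold Tj at h
  rw [Finset.mem_filter, Nat.mem_primeFactors] at h
  obtain ⟨⟨h1, h2, h3⟩, h4, h5⟩ := h
  have h6 : (ℓ : ℤ) ∣ f j := Int.natCast_dvd.2 h2
  refine ⟨h1, h4, h6, fun i hij hi => h5 ?_⟩
  rw [← Finset.mul_prod_erase Finset.univ f (Finset.mem_univ j),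
    ← Finset.mul_prod_erase (Finset.univ.erase j) f (Finset.mem_erase.2 ⟨hij, Finset.mem_univ i⟩),
    pow_two, ← mul_assoc]
  exact dvd_mul_of_dvd_left (mul_dvd_mul h6 hi) _

lemma Tj_sq {ι : Type*} [Fintype ι] [DecidableEq ι] (S : Finset ℕ) (f : ι → ℤ) (j : ι) {ℓ : ℕ}
    (h : ℓ ∈ Tj S f j) : ¬ (ℓ : ℤ) ^ 2 ∣ f j := by
  unfold Tj at h
  rw [Finset.mem_filter] at h
  exact fun h1 => h.2.2 (h1.trans (Finset.dvd_prod_of_mem f (Finset.mem_univ j)))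

lemma Tj_le {ι : Type*} [Fintype ι] [DecidableEq ι] (S : Finset ℕ) (f : ι → ℤ) (j : ι)
    (hf : f j ≠ 0) : ∑ ℓ ∈ Tj S f j, Real.log (ℓ : ℝ) ≤ Real.log |(f j : ℝ)| := by
  have h1 : ∏ ℓ ∈ Tj S f j, ℓ ∣ (f j).natAbs :=
    (Finset.prod_dvd_prod_of_subset _ _ _ (Finset.filter_subset _ _)).trans
      (Nat.prod_primeFactors_dvd _)
  have h2 := Nat.le_of_dvd (Int.natAbs_pos.2 hf) h1
  have hpos : ∀ ℓ ∈ Tj S f j, (0 : ℝ) < ℓ := fun ℓ hℓ => by
    exact_mod_cast (Tj_spec S f j hℓ).1.pos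
  rw [← Real.log_prod (fun ℓ hℓ => (hpos ℓ hℓ).ne')]
  have h3 : (((f j).natAbs : ℕ) : ℝ) = |(f j : ℝ)| := by
    rw [Nat.cast_natAbs, Int.cast_abs]
  rw [← h3]
  refine Real.log_le_log (Finset.prod_pos hpos) ?_
  rw [← Nat.cast_prod]
  exact_mod_cast h2

theorem Tj_sum {ι : Type*} [Fintype ι] [DecidableEq ι] (S : Finset ℕ) (f : ι → ℤ)
    (hf : ∀ j, f j ≠ 0) :
    2 * ∑ p ∈ (∏ j, f j).natAbs.primeFactors \ S, Real.log (p : ℝ) ≤
      Real.log |((∏ j, f j : ℤ) : ℝ)| + ∑ j, ∑ ℓ ∈ Tj S f j, Real.log (ℓ : ℝ) := by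
  classical
  set W : ℤ := ∏ j, f j with hW
  have hW0 : W ≠ 0 := Finset.prod_ne_zero_iff.2 fun j _ => hf j
  set A := W.natAbs.primeFactors \ S with hA
  have hAp : ∀ p ∈ A, p.Prime ∧ p ∣ W.natAbs ∧ p ∉ S := by
    intro p hp
    rw [hA, Finset.mem_sdiff, Nat.mem_primeFactors] at hp
    exact ⟨hp.1.1, hp.1.2.1, hp.2⟩
  -- the squares
  have h1 : ∏ p ∈ A, p ^ (if (p : ℤ) ^ 2 ∣ W then 2 else 1) ∣ W.natAbs := by
    refine Finset.prod_dvd_of_isRelPrime ?_ ?_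
    · intro p hp q hq hpq
      rw [Function.onFun, ← Nat.coprime_iff_isRelPrime]
      exact Nat.Coprime.pow _ _ ((Nat.coprime_primes (hAp p hp).1 (hAp q hq).1).2 hpq)
    · intro p hp
      split_ifs with h2
      · have h3 : ((p ^ 2 : ℕ) : ℤ) ∣ W := by push_cast; exact h2
        exact Int.natCast_dvd.1 h3
      · rw [pow_one]; exact (hAp p hp).2.1
  have hpos : ∀ p ∈ A, (0 : ℝ) < p := fun p hp => by exact_mod_cast (hAp p hp).1.pos
  have h2 : ∑ p ∈ A, Real.log (p : ℝ) + ∑ p ∈ A.filter (fun p : ℕ => (p : ℤ) ^ 2 ∣ W), Real.log (p : ℝ) ≤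
      Real.log |(W : ℝ)| := by
    have h3 := Nat.le_of_dvd (Int.natAbs_pos.2 hW0) h1
    have h4 : Real.log ((∏ p ∈ A, p ^ (if (p : ℤ) ^ 2 ∣ W then 2 else 1) : ℕ) : ℝ) ≤
        Real.log |(W : ℝ)| := by
      have h5 : ((W.natAbs : ℕ) : ℝ) = |(W : ℝ)| := by
        rw [Nat.cast_natAbs, Int.cast_abs]
      rw [← h5]
      refine Real.log_le_log ?_ (by exact_mod_cast h3)
      have : 0 < ∏ p ∈ A, p ^ (if (p : ℤ) ^ 2 ∣ W then 2 else 1) :=
        Finset.prod_pos fun p hp => pow_pos (hAp p hp).1.pos _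
      exact_mod_cast this
    refine le_trans (le_of_eq ?_) h4
    rw [Nat.cast_prod, Real.log_prod (fun p hp =>
      Nat.cast_ne_zero.2 (pow_ne_zero _ (hAp p hp).1.ne_zero)), Finset.sum_filter, ← Finset.sum_add_distrib]
    refine Finset.sum_congr rfl fun p hp => ?_
    split_ifs with h6
    · push_cast
      rw [Real.log_pow]
      push_cast
      ring
    · simp
  -- the other primes
  have hdisj : Set.PairwiseDisjoint (↑(Finset.univ : Finset ι)) (Tj S f) := by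
    intro i _ j _ hij
    rw [Function.onFun, Finset.disjoint_left]
    intro ℓ h1 h2
    exact (Tj_spec S f j h2).2.2.2 i hij (Tj_spec S f i h1).2.2.1
  have h3 : ∑ p ∈ A.filter (fun p : ℕ => ¬ (p : ℤ) ^ 2 ∣ W), Real.log (p : ℝ) ≤
      ∑ j, ∑ ℓ ∈ Tj S f j, Real.log (ℓ : ℝ) := by
    rw [← Finset.sum_biUnion hdisj]
    refine Finset.sum_le_sum_of_subset_of_nonneg ?_ fun p _ _ => Real.log_natCast_nonneg _
    intro p hp
    rw [Finset.mem_filter] at hp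
    obtain ⟨q1, q2, q3⟩ := hAp p hp.1
    have h4 : (p : ℤ) ∣ ∏ j, f j := Int.natCast_dvd.2 q2
    obtain ⟨j, _, hj⟩ := ((Nat.prime_iff_prime_int.1 q1).dvd_finset_prod_iff _).1 h4
    rw [Finset.mem_biUnion]
    refine ⟨j, Finset.mem_univ j, ?_⟩
    unfold Tj
    rw [Finset.mem_filter, Nat.mem_primeFactors]
    exact ⟨⟨q1, Int.natCast_dvd.1 hj, Int.natAbs_ne_zero.2 (hf j)⟩, q3, hp.2⟩
  have h4 := Finset.sum_filter_add_sum_filter_not A (fun p : ℕ => (p : ℤ) ^ 2 ∣ W)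
    (fun p : ℕ => Real.log (p : ℝ))
  linarith

/-- **the weighted version** -/
theorem Tj_main {ι : Type*} [Fintype ι] [DecidableEq ι] (S : Finset ℕ) (f : ι → ℤ)
    (hf : ∀ j, f j ≠ 0) (H : ι → ℝ) (C E : ℝ) (hC : 0 ≤ C)
    (hup : ∀ j, Real.log |(f j : ℝ)| ≤ H j + C)
    (hlow : ∑ j, H j - E ≤ ∑ p ∈ (∏ j, f j).natAbs.primeFactors \ S, Real.log (p : ℝ))
    (w : ι → ℝ) (hw0 : ∀ j, 0 ≤ w j) (hw1 : ∀ j, w j ≤ 1) :
    ∑ j, w j * H j - 3 * E - 3 * Fintype.card ι * C ≤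
      ∑ j, w j * ∑ ℓ ∈ Tj S f j, Real.log (ℓ : ℝ) := by
  classical
  have h1 := Tj_sum S f hf
  have h2 : Real.log |((∏ j, f j : ℤ) : ℝ)| = ∑ j, Real.log |(f j : ℝ)| := by
    push_cast
    rw [Finset.abs_prod, Real.log_prod]
    intro j _
    exact abs_ne_zero.2 (by exact_mod_cast hf j)
  have hW0 : (∏ j, f j) ≠ 0 := Finset.prod_ne_zero_iff.2 fun j _ => hf j
  -- the sum over all primes is at most the logarithm
  have h3 : ∑ p ∈ (∏ j, f j).natAbs.primeFactors \ S, Real.log (p : ℝ) ≤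
      ∑ j, Real.log |(f j : ℝ)| := by
    rw [← h2]
    have q1 : ∏ p ∈ (∏ j, f j).natAbs.primeFactors \ S, p ∣ (∏ j, f j).natAbs :=
      (Finset.prod_dvd_prod_of_subset _ _ _ Finset.sdiff_subset).trans
        (Nat.prod_primeFactors_dvd _)
    have q2 := Nat.le_of_dvd (Int.natAbs_pos.2 hW0) q1
    have hpos : ∀ ℓ ∈ (∏ j, f j).natAbs.primeFactors \ S, (0 : ℝ) < ℓ := fun ℓ hℓ => by
      rw [Finset.mem_sdiff, Nat.mem_primeFactors] at hℓ
      exact_mod_cast hℓ.1.1.pos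
    rw [← Real.log_prod (fun ℓ hℓ => (hpos ℓ hℓ).ne')]
    have q3 : ((((∏ j, f j).natAbs : ℕ)) : ℝ) = |((∏ j, f j : ℤ) : ℝ)| := by
      rw [Nat.cast_natAbs, Int.cast_abs]
    rw [← q3]
    refine Real.log_le_log (Finset.prod_pos hpos) ?_
    rw [← Nat.cast_prod]
    exact_mod_cast q2
  set R := ∑ p ∈ (∏ j, f j).natAbs.primeFactors \ S, Real.log (p : ℝ) with hR
  rw [h2] at h1
  -- the defects
  have h4 : ∑ j, (H j + C - Real.log |(f j : ℝ)|) ≤ E + Fintype.card ι * C := by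
    rw [Finset.sum_sub_distrib, Finset.sum_add_distrib, Finset.sum_const, Finset.card_univ,
      nsmul_eq_mul]
    linarith
  have h5 : ∑ j, w j * (H j + C - Real.log |(f j : ℝ)|) ≤
      ∑ j, (H j + C - Real.log |(f j : ℝ)|) := by
    refine Finset.sum_le_sum fun j _ => ?_
    have := hup j
    nlinarith [hw1 j, hw0 j]
  have h6 : ∑ j, (1 - w j) * ∑ ℓ ∈ Tj S f j, Real.log (ℓ : ℝ) ≤
      ∑ j, (1 - w j) * Real.log |(f j : ℝ)| := by
    refine Finset.sum_le_sum fun j _ => mul_le_mul_of_nonneg_left (Tj_le S f j (hf j)) ?_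
    linarith [hw1 j]
  have h7 : ∑ j, w j * ∑ ℓ ∈ Tj S f j, Real.log (ℓ : ℝ) =
      ∑ j, ∑ ℓ ∈ Tj S f j, Real.log (ℓ : ℝ) -
        ∑ j, (1 - w j) * ∑ ℓ ∈ Tj S f j, Real.log (ℓ : ℝ) := by
    rw [← Finset.sum_sub_distrib]
    exact Finset.sum_congr rfl fun j _ => by ring
  have h8 : ∑ j, (1 - w j) * Real.log |(f j : ℝ)| = ∑ j, Real.log |(f j : ℝ)| -
      (∑ j, w j * H j + ∑ j, w j * C - ∑ j, w j * (H j + C - Real.log |(f j : ℝ)|)) := by
    rw [← Finset.sum_add_distrib, ← Finset.sum_sub_distrib, ← Finset.sum_sub_distrib]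
    exact Finset.sum_congr rfl fun j _ => by ring
  have h9 : 0 ≤ ∑ j, w j * C := Finset.sum_nonneg fun j _ => mul_nonneg (hw0 j) hC
  have h10 : ∑ j, Real.log |(f j : ℝ)| ≤ ∑ j, H j + Fintype.card ι * C := by
    refine (Finset.sum_le_sum fun j _ => hup j).trans (le_of_eq ?_)
    rw [Finset.sum_add_distrib, Finset.sum_const, Finset.card_univ, nsmul_eq_mul]
  linarith

end Pool.Agent.Helper19K9.Ds
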