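import Pool.Agent.Helper19K9.Ds.Kum

/-!
The discriminant, the truncated counting function and the primes which divide one of several
integers exactly once.
-/

set_option autoImplicit false
set_option linter.all false
set_option maxHeartbeats 4000000

namespace Pool.Agent.Helper19K9.Ds

open NumberField UniqueFactorizationMonoid

variable (L : Type*) [Field L] [NumberField L]

/-- the maximal ideals, not above `S`, which contain one of the `f j`, `j ∈ J` -/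
def near {ι : Type*} (S : Finset ℕ) (J : Finset ι) (f : ι → ℤ) : Set (Ideal (𝓞 L)) :=
  {P | P.IsMaximal ∧ (∃ j ∈ J, (f j : 𝓞 L) ∈ P) ∧ ∀ p ∈ S, (p : 𝓞 L) ∉ P}

/-- the truncated counting function -/
noncomputable def Nt {ι : Type*} (S : Finset ℕ) (J : Finset ι) (f : ι → ℤ) : ℝ :=
  (∑ᶠ P ∈ near L S J f, Real.log (Ideal.absNorm P : ℝ)) / Module.finrank ℚ L

variable {L}

lemma near_finite {ι : Type*} (S : Finset ℕ) (J : Finset ι) (f : ι → ℤ) (hf : ∀ j, f j ≠ 0) :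
    (near L S J f).Finite := by
  classical
  refine (J.biUnion fun j => nf L (f j).natAbs).finite_toSet.subset ?_
  rintro P ⟨h1, ⟨j, hj, h2⟩, -⟩
  rw [Finset.mem_coe, Finset.mem_biUnion]
  refine ⟨j, hj, (nf_mem (Int.natAbs_ne_zero.2 (hf j))).2 ⟨h1.isPrime, ?_⟩⟩
  rcases Int.natAbs_eq (f j) with h3 | h3
  · have : (f j : 𝓞 L) = ((f j).natAbs : 𝓞 L) := by
      conv_lhs => rw [h3]
      simp
    rwa [← this]
  · have : (f j : 𝓞 L) = -((f j).natAbs : 𝓞 L) := by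
      conv_lhs => rw [h3]
      simp
    rw [this] at h2
    exact (Ideal.neg_mem_iff _).1 h2

lemma nf_inj {ℓ q : ℕ} (hℓ : ℓ.Prime) (hq : q.Prime) {P : Ideal (𝓞 L)} (h1 : P ∈ nf L ℓ)
    (h2 : P ∈ nf L q) : ℓ = q := by
  by_contra hne
  have hmax := nf_max hℓ.ne_zero h1
  have h3 := ((nf_mem hℓ.ne_zero).1 h1).2
  have h4 := ((nf_mem hq.ne_zero).1 h2).2
  have hcop : IsCoprime (ℓ : ℤ) (q : ℤ) := Nat.isCoprime_iff_coprime.2 ((Nat.coprime_primes hℓ hq).2 hne)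
  obtain ⟨u, v, huv⟩ := hcop
  apply hmax.ne_top
  rw [Ideal.eq_top_iff_one]
  have e : (1 : 𝓞 L) = (u : 𝓞 L) * (ℓ : 𝓞 L) + (v : 𝓞 L) * (q : 𝓞 L) := by
    have := congrArg (fun z : ℤ => (z : 𝓞 L)) huv
    push_cast at this
    exact this.symm
  rw [e]
  exact P.add_mem (P.mul_mem_left _ h3) (P.mul_mem_left _ h4)

lemma absNorm_pos' {P : Ideal (𝓞 L)} (h : P ≠ ⊥) : 0 < Ideal.absNorm P := by
  rw [Nat.pos_iff_ne_zero, Ne, Ideal.absNorm_eq_zero_iff]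
  exact h

theorem sum_near {ι : Type*} [Fintype ι] [DecidableEq ι] (S : Finset ℕ) (hS : ∀ p ∈ S, p.Prime)
    (J : Finset ι) (f : ι → ℤ) (hf : ∀ j, f j ≠ 0) (T : ι → Finset ℕ)
    (hT : ∀ j, ∀ ℓ ∈ T j, ℓ.Prime ∧ ℓ ∉ S ∧ (ℓ : ℤ) ∣ f j ∧ ∀ i, i ≠ j → ¬ (ℓ : ℤ) ∣ f i) :
    ∑ j ∈ J, ∑ ℓ ∈ T j, Real.log (Ideal.absNorm (Rd L ℓ) : ℝ) ≤
      ∑ᶠ P ∈ near L S J f, Real.log (Ideal.absNorm P : ℝ) := by
  classical
  rw [finsum_mem_eq_finite_toFinset_sum _ (near_finite S J f hf)]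
  have hdisj : Set.PairwiseDisjoint (↑J) T := by
    intro i _ j _ hij
    rw [Function.onFun, Finset.disjoint_left]
    intro ℓ h1 h2
    exact (hT j ℓ h2).2.2.2 i hij (hT i ℓ h1).2.2.1
  rw [← Finset.sum_biUnion hdisj]
  have hU : ∀ ℓ ∈ J.biUnion T, ℓ.Prime := by
    intro ℓ hℓ
    rw [Finset.mem_biUnion] at hℓ
    obtain ⟨j, _, hj⟩ := hℓ
    exact (hT j ℓ hj).1
  have e1 : ∀ ℓ ∈ J.biUnion T, Real.log (Ideal.absNorm (Rd L ℓ) : ℝ) =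
      ∑ P ∈ nf L ℓ, Real.log (Ideal.absNorm P : ℝ) := by
    intro ℓ hℓ
    unfold Rd
    rw [map_prod, Nat.cast_prod, Real.log_prod]
    intro P hP
    have := absNorm_pos' (nf_ne_bot (hU ℓ hℓ).ne_zero hP)
    positivity
  rw [Finset.sum_congr rfl e1]
  have hdisj2 : Set.PairwiseDisjoint (↑(J.biUnion T)) (fun ℓ => nf L ℓ) := by
    intro ℓ hℓ q hq hne
    rw [Function.onFun, Finset.disjoint_left]
    intro P h1 h2
    exact hne (nf_inj (hU ℓ hℓ) (hU q hq) h1 h2)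
  rw [← Finset.sum_biUnion hdisj2]
  refine Finset.sum_le_sum_of_subset_of_nonneg ?_ ?_
  · intro P hP
    rw [Finset.mem_biUnion] at hP
    obtain ⟨ℓ, hℓ, hP⟩ := hP
    rw [Finset.mem_biUnion] at hℓ
    obtain ⟨j, hj, hℓj⟩ := hℓ
    obtain ⟨hp, hSn, hd, -⟩ := hT j ℓ hℓj
    rw [Set.Finite.mem_toFinset]
    refine ⟨nf_max hp.ne_zero hP, ⟨j, hj, ?_⟩, ?_⟩
    · obtain ⟨u, hu⟩ := hd
      rw [hu]
      push_cast
      exact P.mul_mem_right _ ((nf_mem hp.ne_zero).1 hP).2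
    · intro p hpS hpP
      have h5 : P ∈ nf L p := (nf_mem (hS p hpS).ne_zero).2
        ⟨((nf_mem hp.ne_zero).1 hP).1, hpP⟩
      have := nf_inj hp (hS p hpS) hP h5
      rw [this] at hSn
      exact hSn hpS
  · intro P _ _
    exact Real.log_natCast_nonneg _

/-- **The inequality in the field `L`.** -/
theorem field_ineq {ι : Type*} [Fintype ι] [DecidableEq ι] (S : Finset ℕ) (hS : ∀ p ∈ S, p.Prime)
    (J : Finset ι) (f : ι → ℤ) (hf : ∀ j, f j ≠ 0) (T : ι → Finset ℕ)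
    (hT : ∀ j, ∀ ℓ ∈ T j, ℓ.Prime ∧ ℓ ∉ S ∧ (ℓ : ℤ) ∣ f j ∧ ∀ i, i ≠ j → ¬ (ℓ : ℤ) ∣ f i)
    (n : ι → ℕ) (hn1 : ∀ j, 1 ≤ n j)
    (hn : ∀ j, ∀ ℓ ∈ T j, ∀ P ∈ nf L ℓ, n j ≤ cn L ℓ P) :
    ∑ j, (if j ∈ J then (1 : ℝ) else 1 - 1 / (n j : ℝ)) * ∑ ℓ ∈ T j, Real.log (ℓ : ℝ) ≤
      Real.log |(discr L : ℝ)| / Module.finrank ℚ L + Nt L S J f := by
  classical
  set N : ℝ := (Module.finrank ℚ L : ℝ) with hN
  have hN0 : 0 < N := by
    rw [hN]; exact_mod_cast Module.finrank_pos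
  have hdisj : Set.PairwiseDisjoint (↑(Finset.univ : Finset ι)) T := by
    intro i _ j _ hij
    rw [Function.onFun, Finset.disjoint_left]
    intro ℓ h1 h2
    exact (hT j ℓ h2).2.2.2 i hij (hT i ℓ h1).2.2.1
  have h1 := log_disc (L := L) (Finset.univ.biUnion T) (fun ℓ hℓ => by
    rw [Finset.mem_biUnion] at hℓ
    obtain ⟨j, _, hj⟩ := hℓ
    exact (hT j ℓ hj).1)
  rw [Finset.sum_biUnion hdisj] at h1
  have h2 := sum_near (L := L) S hS J f hf T hT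
  have h3 : N * ∑ j, (if j ∈ J then (1 : ℝ) else 1 - 1 / (n j : ℝ)) * ∑ ℓ ∈ T j, Real.log (ℓ : ℝ) ≤
      ∑ j, ∑ ℓ ∈ T j, (N * Real.log ℓ - Real.log (Ideal.absNorm (Rd L ℓ) : ℝ)) +
        ∑ j ∈ J, ∑ ℓ ∈ T j, Real.log (Ideal.absNorm (Rd L ℓ) : ℝ) := by
    rw [← Finset.sum_filter_add_sum_filter_not Finset.univ (· ∈ J)
      (fun j => ∑ ℓ ∈ T j, (N * Real.log ℓ - Real.log (Ideal.absNorm (Rd L ℓ) : ℝ))),
      Finset.mul_sum, ← Finset.sum_filter_add_sum_filter_not Finset.univ (· ∈ J)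
      (fun j => N * ((if j ∈ J then (1 : ℝ) else 1 - 1 / (n j : ℝ)) *
        ∑ ℓ ∈ T j, Real.log (ℓ : ℝ)))]
    have eJ : Finset.univ.filter (· ∈ J) = J := by ext; simp
    rw [eJ]
    have a1 : ∑ j ∈ J, N * ((if j ∈ J then (1 : ℝ) else 1 - 1 / (n j : ℝ)) *
        ∑ ℓ ∈ T j, Real.log (ℓ : ℝ)) =
        ∑ j ∈ J, ∑ ℓ ∈ T j, (N * Real.log ℓ - Real.log (Ideal.absNorm (Rd L ℓ) : ℝ)) +
        ∑ j ∈ J, ∑ ℓ ∈ T j, Real.log (Ideal.absNorm (Rd L ℓ) : ℝ) := by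
      rw [← Finset.sum_add_distrib]
      refine Finset.sum_congr rfl fun j hj => ?_
      rw [if_pos hj, one_mul, ← Finset.sum_add_distrib, Finset.mul_sum]
      refine Finset.sum_congr rfl fun ℓ _ => ?_
      ring
    have a2 : ∑ j ∈ Finset.univ.filter (fun j => j ∉ J),
        N * ((if j ∈ J then (1 : ℝ) else 1 - 1 / (n j : ℝ)) * ∑ ℓ ∈ T j, Real.log (ℓ : ℝ)) ≤
        ∑ j ∈ Finset.univ.filter (fun j => j ∉ J),
          ∑ ℓ ∈ T j, (N * Real.log ℓ - Real.log (Ideal.absNorm (Rd L ℓ) : ℝ)) := by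
      refine Finset.sum_le_sum fun j hj => ?_
      rw [Finset.mem_filter] at hj
      rw [if_neg hj.2, ← mul_assoc, Finset.mul_sum]
      refine Finset.sum_le_sum fun ℓ hℓ => ?_
      have h4 := Rd_pow (L := L) (hT j ℓ hℓ).1 (hn1 j) (hn j ℓ hℓ)
      rw [← hN] at h4
      have h5 : N * (1 - 1 / (n j : ℝ)) * Real.log ℓ = N * Real.log ℓ - N * Real.log ℓ / n j := by
        ring
      rw [h5]
      linarith
    linarith
  have h6 : N * ∑ j, (if j ∈ J then (1 : ℝ) else 1 - 1 / (n j : ℝ)) * ∑ ℓ ∈ T j, Real.log (ℓ : ℝ) ≤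
      Real.log |(discr L : ℝ)| + ∑ᶠ P ∈ near L S J f, Real.log (Ideal.absNorm P : ℝ) := by
    linarith
  unfold Nt
  rw [← add_div, le_div_iff₀ hN0, mul_comm]
  exact h6

end Pool.Agent.Helper19K9.Ds
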