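import Pool.Agent.Helper19K9.Ds.Ram

/-!
Ramification in fields which contain roots of products of integers.
-/

set_option autoImplicit false
set_option linter.all false
set_option maxHeartbeats 4000000

namespace Pool.Agent.Helper19K9.Ds

open NumberField UniqueFactorizationMonoid

variable {L : Type*} [Field L] [NumberField L]

open Classical in
/-- the valuation -/
noncomputable def vl (P : Ideal (𝓞 L)) (x : 𝓞 L) : ℕ :=
  (normalizedFactors (Ideal.span {x})).count P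

lemma vl_mul (P : Ideal (𝓞 L)) {x y : 𝓞 L} (hx : x ≠ 0) (hy : y ≠ 0) :
    vl P (x * y) = vl P x + vl P y := by
  classical
  unfold vl
  rw [← Ideal.span_singleton_mul_span_singleton, normalizedFactors_mul, Multiset.count_add]
  · rwa [Ne, Ideal.zero_eq_bot, Ideal.span_singleton_eq_bot]
  · rwa [Ne, Ideal.zero_eq_bot, Ideal.span_singleton_eq_bot]

lemma vl_one (P : Ideal (𝓞 L)) : vl P 1 = 0 := by
  classical
  unfold vl
  rw [Ideal.span_singleton_one, ← Ideal.one_eq_top, normalizedFactors_one]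
  simp

lemma vl_pow (P : Ideal (𝓞 L)) {x : 𝓞 L} (hx : x ≠ 0) (n : ℕ) : vl P (x ^ n) = n * vl P x := by
  induction n with
  | zero => rw [pow_zero, vl_one, zero_mul]
  | succ n ih => rw [pow_succ, vl_mul P (pow_ne_zero n hx) hx, ih]; ring

lemma vl_prod {ι : Type*} (P : Ideal (𝓞 L)) (s : Finset ι) (x : ι → 𝓞 L) (hx : ∀ i ∈ s, x i ≠ 0) :
    vl P (∏ i ∈ s, x i) = ∑ i ∈ s, vl P (x i) := by
  classical
  induction s using Finset.induction_on with
  | empty => rw [Finset.prod_empty, Finset.sum_empty, vl_one]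
  | insert i s hi ih =>
    rw [Finset.prod_insert hi, Finset.sum_insert hi, vl_mul P (hx i (Finset.mem_insert_self i s))
      (Finset.prod_ne_zero_iff.2 fun k hk => hx k (Finset.mem_insert_of_mem hk)),
      ih fun k hk => hx k (Finset.mem_insert_of_mem hk)]

lemma vl_zero {ℓ : ℕ} (hℓ : ℓ.Prime) {P : Ideal (𝓞 L)} (hP : P ∈ nf L ℓ) {c : ℤ}
    (hc : ¬ (ℓ : ℤ) ∣ c) : vl P (c : 𝓞 L) = 0 := by
  classical
  unfold vl
  rw [Multiset.count_eq_zero]
  intro hmem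
  have hc0 : (c : 𝓞 L) ≠ 0 := by
    intro h
    apply hc
    have : c = 0 := by exact_mod_cast h
    rw [this]; exact dvd_zero _
  rw [Ideal.mem_normalizedFactors_iff (by rwa [Ne, Ideal.span_singleton_eq_bot])] at hmem
  have h1 : (c : 𝓞 L) ∈ P := by
    rw [← Ideal.span_singleton_le_iff_mem]; exact hmem.2
  have h2 := ((nf_mem hℓ.ne_zero).1 hP).2
  have hcop : IsCoprime (ℓ : ℤ) c := (Nat.prime_iff_prime_int.1 hℓ).irreducible.coprime_iff_not_dvd.2 hc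
  obtain ⟨u, v, huv⟩ := hcop
  have h3 : (1 : 𝓞 L) ∈ P := by
    have e : (1 : 𝓞 L) = (u : 𝓞 L) * (ℓ : 𝓞 L) + (v : 𝓞 L) * (c : 𝓞 L) := by
      have := congrArg (fun z : ℤ => (z : 𝓞 L)) huv
      push_cast at this
      exact this.symm
    rw [e]
    exact P.add_mem (P.mul_mem_left _ h2) (P.mul_mem_left _ h1)
  exact (nf_max hℓ.ne_zero hP).ne_top ((Ideal.eq_top_iff_one P).2 h3)

lemma dvd_of_mul_eq {m e a b : ℕ} (hm : 0 < m) (h : m * a = e * b) : m / Nat.gcd m e ∣ b := by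
  have hg : 0 < Nat.gcd m e := Nat.gcd_pos_of_pos_left _ hm
  obtain ⟨m', hm'⟩ := Nat.gcd_dvd_left m e
  obtain ⟨e', he'⟩ := Nat.gcd_dvd_right m e
  have h1 : m / Nat.gcd m e = m' := Nat.div_eq_of_eq_mul_right hg hm'
  have h2 : e / Nat.gcd m e = e' := Nat.div_eq_of_eq_mul_right hg he'
  have hcop : Nat.Coprime m' e' := by
    have := Nat.coprime_div_gcd_div_gcd hg
    rwa [h1, h2] at this
  rw [h1]
  refine hcop.dvd_of_dvd_mul_left ⟨a, ?_⟩
  have h3 : Nat.gcd m e * (m' * a) = Nat.gcd m e * (e' * b) := by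
    rw [← mul_assoc, ← mul_assoc, ← hm', ← he']; exact h
  exact (Nat.eq_of_mul_eq_mul_left hg h3).symm

/-- the ramification index is divisible by `m / gcd (m, e)` -/
theorem kum {J : Type*} [Fintype J] {ℓ : ℕ} (hℓ : ℓ.Prime) (m : ℕ) (hm : 1 ≤ m)
    (e : J → ℕ) (f : J → ℤ) (c : ℤ) (y : L) (hy : y ^ m = (c : L) * ∏ j, (f j : L) ^ e j)
    (j₀ : J) (h1 : (ℓ : ℤ) ∣ f j₀) (h2 : ¬ (ℓ : ℤ) ^ 2 ∣ f j₀)
    (h3 : ∀ j, j ≠ j₀ → ¬ (ℓ : ℤ) ∣ f j) (hc : ¬ (ℓ : ℤ) ∣ c) {P : Ideal (𝓞 L)}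
    (hP : P ∈ nf L ℓ) : m / Nat.gcd m (e j₀) ∣ cn L ℓ P := by
  classical
  -- `y` is integral
  have hint : IsIntegral ℤ y := by
    refine IsIntegral.of_pow (by omega : 0 < m) ?_
    rw [hy]
    have : ((c : L) * ∏ j, (f j : L) ^ e j) = algebraMap ℤ L (c * ∏ j, f j ^ e j) := by
      simp [map_mul, map_prod, map_pow]
    rw [this]
    exact isIntegral_algebraMap
  obtain ⟨y', hy'⟩ : ∃ y' : 𝓞 L, (algebraMap (𝓞 L) L) y' = y := ⟨⟨y, hint⟩, rfl⟩
  have heq : y' ^ m = (c : 𝓞 L) * ∏ j, (f j : 𝓞 L) ^ e j := by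
    apply RingOfIntegers.ext
    have h : ((y' ^ m : 𝓞 L) : L) = y ^ m := by
      rw [← hy']; simp
    rw [h, hy]
    simp [map_mul, map_prod, map_pow]
  obtain ⟨u, hu⟩ := h1
  have hℓu : ¬ (ℓ : ℤ) ∣ u := by
    rintro ⟨w, hw⟩
    exact h2 ⟨w, by rw [hu, hw]; ring⟩
  have hne : ∀ z : ℤ, z ≠ 0 → (z : 𝓞 L) ≠ 0 := fun z hz => by exact_mod_cast hz
  have nz : ∀ z : ℤ, ¬ (ℓ : ℤ) ∣ z → z ≠ 0 := by
    rintro z hz rfl; exact hz (dvd_zero _)
  have hfj : ∀ j, f j ≠ 0 := by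
    intro j
    by_cases hj : j = j₀
    · rw [hj, hu]
      exact mul_ne_zero (by exact_mod_cast hℓ.ne_zero) (nz u hℓu)
    · exact nz _ (h3 j hj)
  have hprod : (∏ j, (f j : 𝓞 L) ^ e j) ≠ 0 :=
    Finset.prod_ne_zero_iff.2 fun j _ => pow_ne_zero _ (hne _ (hfj j))
  have hy0 : y' ≠ 0 := by
    rintro rfl
    rw [zero_pow (by omega)] at heq
    exact mul_ne_zero (hne _ (nz c hc)) hprod heq.symm
  have hv := congrArg (vl P) heq
  rw [vl_pow P hy0, vl_mul P (hne _ (nz c hc)) hprod, vl_zero hℓ hP hc, zero_add,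
    vl_prod P _ _ (fun j _ => pow_ne_zero _ (hne _ (hfj j))),
    Finset.sum_eq_single j₀ (fun j _ hj => by
      rw [vl_pow P (hne _ (hfj j)), vl_zero hℓ hP (h3 j hj), mul_zero]) (by simp),
    vl_pow P (hne _ (hfj j₀)), hu] at hv
  have hcast : ((((ℓ : ℤ) * u : ℤ)) : 𝓞 L) = (ℓ : 𝓞 L) * (u : 𝓞 L) := by push_cast; ring
  rw [hcast, vl_mul P (by exact_mod_cast hℓ.ne_zero) (hne _ (nz u hℓu)), vl_zero hℓ hP hℓu,
    add_zero] at hv
  exact dvd_of_mul_eq (by omega) hv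

end Pool.Agent.Helper19K9.Ds
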