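import Pool.Agent.Helper19K9.Ds.Fld
import Pool.Agent.Helper19K9.Ds.Arith
import Pool.Agent.Helper19K9.Fb.Main

/-!
Discriminants of fields generated by roots of values of forms.
-/

set_option autoImplicit false
set_option linter.all false
set_option maxHeartbeats 4000000

namespace Pool.Agent.Helper19K9.Ds

open NumberField MvPolynomial Pool.Agent.TH910.Voj Pool.Agent.Helper19K9.Sq Pool.Agent.H813R3.Voj
  Pool.Agent.Helper19K9.Fb

/-- the ramification indices of an abelian cover -/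
def ord {r q : ℕ} (m : Fin r → ℕ) (e : Fin r → Fin q → ℕ) (j : Fin q) : ℕ :=
  Finset.univ.lcm (fun i => m i / Nat.gcd (m i) (e i j))

lemma ord_pos {r q : ℕ} {m : Fin r → ℕ} (hm : ∀ i, 1 ≤ m i) (e : Fin r → Fin q → ℕ) (j : Fin q) :
    1 ≤ ord m e j := by
  unfold ord
  rw [Nat.one_le_iff_ne_zero, Ne, Finset.lcm_eq_zero_iff]
  rintro ⟨i, -, hi⟩
  have h1 : 0 < Nat.gcd (m i) (e i j) := Nat.gcd_pos_of_pos_left _ (hm i)
  have h2 := Nat.le_of_dvd (hm i) (Nat.gcd_dvd_left (m i) (e i j))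
  have h3 := Nat.div_pos h2 h1
  omega

/-- the inequality for one field -/
theorem det_part {q : ℕ} (f : Fin q → ℤ) (hf : ∀ j, f j ≠ 0) (S : Finset ℕ)
    (hS : ∀ p ∈ S, p.Prime) (L : Type*) [Field L] [NumberField L] (J : Finset (Fin q)) (r : ℕ)
    (m : Fin r → ℕ) (hm : ∀ i, 1 ≤ m i) (e : Fin r → Fin q → ℕ) (c : Fin r → ℤ)
    (hc : ∀ i, ∀ p : ℕ, p.Prime → (p : ℤ) ∣ c i → p ∈ S) (z : Fin r → L)
    (hz : ∀ i, z i ^ m i = (c i : L) * ∏ j, (f j : L) ^ e i j) :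
    ∑ j, (if j ∈ J then (1 : ℝ) else 1 - 1 / (ord m e j : ℝ)) *
      ∑ ℓ ∈ Tj S f j, Real.log (ℓ : ℝ) ≤
      Real.log |(discr L : ℝ)| / Module.finrank ℚ L + Nt L S J f := by
  classical
  refine field_ineq S hS J f hf (Tj S f) (fun j ℓ hℓ => Tj_spec S f j hℓ) (fun j => ord m e j)
    (fun j => ord_pos hm e j) ?_
  intro j ℓ hℓ P hP
  obtain ⟨h1, h2, h3, h4⟩ := Tj_spec S f j hℓ
  refine Nat.le_of_dvd (cn_pos hP) ?_
  unfold ord
  refine Finset.lcm_dvd fun i _ => ?_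
  exact kum h1 (m i) (hm i) (e i) f (c i) (z i) (hz i) j h3 (Tj_sq S f j hℓ) h4
    (fun h => h2 (hc i ℓ h1 h)) hP

/-- the inequality for all abelian covers -/
def Good {q : ℕ} (S : Finset ℕ) (F : Fin q → MvPolynomial (Fin 4) ℤ) (a b : Fin q → ℕ) (ε : ℝ)
    (x y : ℤ × ℤ) : Prop :=
  (∀ j, val (F j) x y ≠ 0) ∧
  ∀ (L : Type) [Field L] [NumberField L] (J : Finset (Fin q)) (r : ℕ)
    (m : Fin r → ℕ) (e : Fin r → Fin q → ℕ) (c : Fin r → ℤ) (z : Fin r → L),
    (∀ i, 1 ≤ m i) → (∀ i, ∀ p : ℕ, p.Prime → (p : ℤ) ∣ c i → p ∈ S) →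
    (∀ i, z i ^ m i = (c i : L) * ∏ j, (val (F j) x y : L) ^ e i j) →
    ∑ j, (if j ∈ J then (1 : ℝ) else 1 - 1 / (ord m e j : ℝ)) *
        (a j * Real.log (ht x) + b j * Real.log (ht y)) -
      ε * (Real.log (ht x) + Real.log (ht y)) ≤
      Real.log |(discr L : ℝ)| / Module.finrank ℚ L + Nt L S J (fun j => val (F j) x y)

lemma gain_eq {a b : ℕ} (ha : 1 ≤ a) {s Λ : ℝ} (hs : 0 ≤ s) (hsΛ : s ≤ Λ) (h : (a : ℝ) + b * Λ < 4) :
    gain a b s = a + b * s := by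
  unfold gain
  rw [if_neg (by omega)]
  have h1 : ((a : ℝ) + b * s) < 4 := by
    have : (b : ℝ) * s ≤ b * Λ := mul_le_mul_of_nonneg_left hsΛ (by positivity)
    linarith
  have h2 : ⌊((a : ℝ) + b * s) / 2⌋₊ < 2 := by
    rw [Nat.floor_lt (by positivity)]
    push_cast
    linarith
  have h3 : max 1 ⌊((a : ℝ) + b * s) / 2⌋₊ = 1 := by omega
  rw [h3]
  simp

lemma FS_bounded (Y : ℤ × ℤ → Prop) (Λ : ℝ) (H : ℕ) : FS Y Λ (fun B y x => ht x ≤ H) := by
  refine ⟨1, one_pos, (bx H).card + 1, by positivity, fun B hB y hy hyB => ?_⟩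
  have hB1 : (1 : ℝ) ≤ B := by exact_mod_cast hB
  have h1 : ((fset B (fun x => ht x ≤ H)).ncard : ℝ) ≤ (bx H).card := by
    rw [← Set.ncard_coe_finset]
    exact_mod_cast Set.ncard_le_ncard (s := fset B (fun x => ht x ≤ H))
      (t := ((bx H : Finset (ℤ × ℤ)) : Set (ℤ × ℤ))) (fun x hx => mem_bx.2 hx.2.2)
      (bx H).finite_toSet
  have h2 : (1 : ℝ) ≤ (B : ℝ) ^ ((2 : ℝ) - 1) := Real.one_le_rpow hB1 (by norm_num)
  have h3 : (0 : ℝ) ≤ ((bx H).card : ℝ) := by positivity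
  nlinarith

theorem main_kum {q : ℕ} (F : Fin q → MvPolynomial (Fin 4) ℤ) (a b : Fin q → ℕ)
    (hbi : ∀ j, Bi (F j) (a j) (b j)) (hirr : ∀ j, Irreducible (toQ (F j)))
    (hdist : ∀ i j, i ≠ j → ¬ Associated (toQ (F i)) (toQ (F j))) (S : Finset ℕ)
    (hS : ∀ p ∈ S, p.Prime) (Λ : ℝ) (hΛ : 0 < Λ) (ha : ∀ j, 1 ≤ a j)
    (hab : ∀ j, (a j : ℝ) + b j * Λ < 4) :
    ∃ Z : Set (ℤ × ℤ), Z.Finite ∧ ∀ ε : ℝ, 0 < ε → FS (fun y => IsCoprime y.1 y.2 ∧ y ∉ Z) Λ
      (fun B y x => ¬ Good S F a b ε x y) := by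
  classical
  obtain ⟨Z, hZ, h⟩ := main_fib F a b hbi hirr hdist S Λ hΛ 0 0 (fun s hs hs' => by
    rw [sub_zero, sub_zero, Finset.sum_mul, ← Finset.sum_add_distrib]
    exact Finset.sum_le_sum fun j _ => (gain_eq (ha j) hs hs' (hab j)).ge)
  refine ⟨Z, hZ, fun ε hε => ?_⟩
  choose k hk1 hk using fun j => val_le (hbi j)
  set C : ℝ := ∑ j, Real.log (k j : ℝ) with hC
  have hC0 : 0 ≤ C := Finset.sum_nonneg fun j _ => Real.log_natCast_nonneg _
  set H₀ : ℕ := ⌈Real.exp (6 * q * C / ε)⌉₊ with hH₀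
  refine ((h (ε / 6) (by linarith)).or (FS_bounded _ Λ H₀)).mono ?_
  intro B y x hB hy hyB hxB hx hbad
  by_contra hcon
  push Not at hcon
  obtain ⟨⟨hne, hsum⟩, hH⟩ := hcon
  apply hbad
  refine ⟨hne, fun L _ _ J r m e c z hm hc hz => ?_⟩
  have hdet := det_part (fun j => val (F j) x y) hne S hS L J r m hm e c hc z hz
  refine le_trans ?_ hdet
  have hx0 := nonneg_of_htlog hx
  have hy0 := nonneg_of_htlog hy.1
  have key := Tj_main S (fun j => val (F j) x y) hne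
    (fun j => a j * Real.log (ht x) + b j * Real.log (ht y)) C
    (ε / 6 * (Real.log (ht x) + Real.log (ht y))) hC0
    (fun j => by
      have h1 : (0 : ℝ) < |((val (F j) x y : ℤ) : ℝ)| := abs_pos.2 (by exact_mod_cast hne j)
      have h2 : |((val (F j) x y : ℤ) : ℝ)| ≤ (k j : ℝ) * (ht x : ℝ) ^ a j * (ht y : ℝ) ^ b j := by
        have h3 : (((val (F j) x y).natAbs : ℕ) : ℝ) = |((val (F j) x y : ℤ) : ℝ)| := by
          rw [Nat.cast_natAbs, Int.cast_abs]
        rw [← h3]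
        exact_mod_cast hk j x y
      have hxp : (0 : ℝ) < ht x := by exact_mod_cast ht_pos hx
      have hyp : (0 : ℝ) < ht y := by exact_mod_cast ht_pos hy.1
      have hkp : (0 : ℝ) < k j := by exact_mod_cast hk1 j
      have h4 := Real.log_le_log h1 h2
      rw [Real.log_mul (by positivity) (by positivity), Real.log_mul (by positivity) (by positivity),
        Real.log_pow, Real.log_pow] at h4
      have h5 : Real.log (k j : ℝ) ≤ C :=
        Finset.single_le_sum (f := fun j => Real.log (k j : ℝ))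
          (fun j _ => Real.log_natCast_nonneg _) (Finset.mem_univ j)
      linarith)
    (by
      refine le_trans (le_of_eq ?_) hsum
      rw [Finset.sum_add_distrib, ← Finset.sum_mul, ← Finset.sum_mul]
      ring)
    (fun j => if j ∈ J then (1 : ℝ) else 1 - 1 / (ord m e j : ℝ))
    (fun j => by
      split_ifs
      · norm_num
      · have h1 : (1 : ℝ) ≤ ord m e j := by exact_mod_cast ord_pos hm e j
        have : 1 / (ord m e j : ℝ) ≤ 1 := by
          rw [div_le_one (by linarith)]; exact h1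
        linarith)
    (fun j => by
      split_ifs
      · norm_num
      · have : 0 ≤ 1 / (ord m e j : ℝ) := by positivity
        linarith)
  refine le_trans ?_ key
  rw [Fintype.card_fin]
  have hlog : 6 * q * C / ε ≤ Real.log (ht x) := by
    have h0 : (H₀ : ℝ) ≤ ht x := by exact_mod_cast hH.le
    have h1 : Real.exp (6 * q * C / ε) ≤ ht x := (Nat.le_ceil _).trans h0
    have h2 := Real.log_le_log (Real.exp_pos _) h1
    rwa [Real.log_exp] at h2
  rw [div_le_iff₀ hε] at hlog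
  nlinarith

end Pool.Agent.Helper19K9.Ds
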