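import Mathlib

/-!
The different and the primes at which a number field is ramified.
-/

set_option autoImplicit false
set_option linter.all false
set_option maxHeartbeats 4000000

namespace Pool.Agent.Helper19K9.Ds

open NumberField UniqueFactorizationMonoid

variable (L : Type*) [Field L] [NumberField L]

/-- the ideal generated by a rational integer -/
noncomputable def idl (ℓ : ℕ) : Ideal (𝓞 L) := Ideal.span {(ℓ : 𝓞 L)}

open Classical in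
noncomputable def nf (ℓ : ℕ) : Finset (Ideal (𝓞 L)) := (normalizedFactors (idl L ℓ)).toFinset

open Classical in
noncomputable def cn (ℓ : ℕ) (P : Ideal (𝓞 L)) : ℕ := (normalizedFactors (idl L ℓ)).count P

/-- the product of the primes above `ℓ` -/
noncomputable def Rd (ℓ : ℕ) : Ideal (𝓞 L) := ∏ P ∈ nf L ℓ, P

/-- the quotient of `(ℓ)` by it -/
noncomputable def Bd (ℓ : ℕ) : Ideal (𝓞 L) := ∏ P ∈ nf L ℓ, P ^ (cn L ℓ P - 1)

variable {L}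

lemma idl_ne {ℓ : ℕ} (h : ℓ ≠ 0) : idl L ℓ ≠ ⊥ := by
  unfold idl
  rw [Ne, Ideal.span_singleton_eq_bot]
  exact_mod_cast h

lemma cn_pos {ℓ : ℕ} {P : Ideal (𝓞 L)} (hP : P ∈ nf L ℓ) : 1 ≤ cn L ℓ P := by
  classical
  unfold nf at hP
  unfold cn
  rw [Multiset.mem_toFinset] at hP
  exact Multiset.one_le_count_iff_mem.2 hP

lemma idl_prod {ℓ : ℕ} (h : ℓ ≠ 0) : ∏ P ∈ nf L ℓ, P ^ (cn L ℓ P) = idl L ℓ := by
  classical
  have h1 := Ideal.prod_normalizedFactors_eq_self (idl_ne (L := L) h)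
  rw [Finset.prod_multiset_count] at h1
  exact h1

lemma RB {ℓ : ℕ} (h : ℓ ≠ 0) : Rd L ℓ * Bd L ℓ = idl L ℓ := by
  unfold Rd Bd
  rw [← Finset.prod_mul_distrib, ← idl_prod h]
  refine Finset.prod_congr rfl fun P hP => ?_
  rw [← pow_succ', Nat.sub_add_cancel (cn_pos hP)]

lemma nf_mem {ℓ : ℕ} (h : ℓ ≠ 0) {P : Ideal (𝓞 L)} : P ∈ nf L ℓ ↔ P.IsPrime ∧ (ℓ : 𝓞 L) ∈ P := by
  classical
  unfold nf
  rw [Multiset.mem_toFinset, Ideal.mem_normalizedFactors_iff (idl_ne h)]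
  unfold idl
  rw [Ideal.span_singleton_le_iff_mem]

lemma nf_ne_bot {ℓ : ℕ} (h : ℓ ≠ 0) {P : Ideal (𝓞 L)} (hP : P ∈ nf L ℓ) : P ≠ ⊥ := by
  rintro rfl
  have := ((nf_mem h).1 hP).2
  rw [Ideal.mem_bot] at this
  exact h (by exact_mod_cast this)

lemma nf_max {ℓ : ℕ} (h : ℓ ≠ 0) {P : Ideal (𝓞 L)} (hP : P ∈ nf L ℓ) : P.IsMaximal :=
  ((nf_mem h).1 hP).1.isMaximal (nf_ne_bot h hP)

lemma nf_cop {ℓ : ℕ} (h : ℓ ≠ 0) {P Q : Ideal (𝓞 L)} (hP : P ∈ nf L ℓ) (hQ : Q ∈ nf L ℓ)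
    (hPQ : P ≠ Q) : IsCoprime P Q := by
  rw [Ideal.isCoprime_iff_sup_eq]
  exact Ideal.IsMaximal.coprime_of_ne (nf_max h hP) (nf_max h hQ) hPQ

lemma Bd_dvd {ℓ : ℕ} (h : ℓ.Prime) : Bd L ℓ ∣ differentIdeal ℤ (𝓞 L) := by
  unfold Bd
  refine Finset.prod_dvd_of_coprime ?_ ?_
  · intro P hP Q hQ hPQ
    exact (nf_cop h.ne_zero hP hQ hPQ).pow
  · intro P hP
    have hmax : (Ideal.span {(ℓ : ℤ)}).IsMaximal :=
      PrincipalIdealRing.isMaximal_of_irreducible (Nat.prime_iff_prime_int.1 h).irreducible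
    refine pow_sub_one_dvd_differentIdeal ℤ (p := Ideal.span {(ℓ : ℤ)}) P (cn L ℓ P) ?_ ?_
    · rw [Ne, Ideal.span_singleton_eq_bot]
      exact_mod_cast h.ne_zero
    · rw [Ideal.map_span, Set.image_singleton]
      have e : (algebraMap ℤ (𝓞 L)) (ℓ : ℤ) = (ℓ : 𝓞 L) := by simp
      rw [e]
      show P ^ (cn L ℓ P) ∣ idl L ℓ
      rw [← idl_prod h.ne_zero]
      exact Finset.dvd_prod_of_mem _ hP

lemma norm_idl (ℓ : ℕ) : Ideal.absNorm (idl L ℓ) = ℓ ^ Module.finrank ℚ L := by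
  unfold idl
  rw [Ideal.absNorm_span_natCast, RingOfIntegers.rank]

lemma norm_RB {ℓ : ℕ} (h : ℓ ≠ 0) :
    Ideal.absNorm (Rd L ℓ) * Ideal.absNorm (Bd L ℓ) = ℓ ^ Module.finrank ℚ L := by
  rw [← map_mul, RB h, norm_idl]

lemma prod_dvd (T : Finset ℕ) (hT : ∀ ℓ ∈ T, ℓ.Prime) :
    ∏ ℓ ∈ T, Ideal.absNorm (Bd L ℓ) ∣ (discr L).natAbs := by
  rw [← absNorm_differentIdeal L (𝓞 L)]
  refine Finset.prod_dvd_of_isRelPrime ?_ ?_
  · intro ℓ hℓ q hq hlq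
    rw [Function.onFun, ← Nat.coprime_iff_isRelPrime]
    have h1 : Ideal.absNorm (Bd L ℓ) ∣ ℓ ^ Module.finrank ℚ L := ⟨_, by
      rw [← norm_RB (hT ℓ hℓ).ne_zero, mul_comm]⟩
    have h2 : Ideal.absNorm (Bd L q) ∣ q ^ Module.finrank ℚ L := ⟨_, by
      rw [← norm_RB (hT q hq).ne_zero, mul_comm]⟩
    refine Nat.Coprime.of_dvd h1 h2 ?_
    exact Nat.Coprime.pow _ _ ((Nat.coprime_primes (hT ℓ hℓ) (hT q hq)).2 hlq)
  · intro ℓ hℓ
    obtain ⟨J, hJ⟩ := Bd_dvd (L := L) (hT ℓ hℓ)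
    exact ⟨Ideal.absNorm J, by rw [← map_mul, ← hJ]⟩

lemma norm_pos {ℓ : ℕ} (h : ℓ ≠ 0) : 0 < Ideal.absNorm (Rd L ℓ) ∧ 0 < Ideal.absNorm (Bd L ℓ) := by
  have h1 := norm_RB (L := L) h
  have h2 : 0 < ℓ ^ Module.finrank ℚ L := by positivity
  rw [← h1] at h2
  exact ⟨Nat.pos_of_mul_pos_right h2 , Nat.pos_of_mul_pos_left h2⟩

/-- **the discriminant and the norms of the primes above a set of rational primes** -/
theorem log_disc (T : Finset ℕ) (hT : ∀ ℓ ∈ T, ℓ.Prime) :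
    ∑ ℓ ∈ T, (Module.finrank ℚ L * Real.log ℓ - Real.log (Ideal.absNorm (Rd L ℓ) : ℝ)) ≤
      Real.log |(discr L : ℝ)| := by
  have h1 := Nat.le_of_dvd (Int.natAbs_pos.2 (discr_ne_zero L)) (prod_dvd (L := L) T hT)
  have h2 : Real.log ((∏ ℓ ∈ T, Ideal.absNorm (Bd L ℓ) : ℕ) : ℝ) ≤ Real.log |(discr L : ℝ)| := by
    have h3 : (((discr L).natAbs : ℕ) : ℝ) = |(discr L : ℝ)| := by
      rw [Nat.cast_natAbs, Int.cast_abs]
    rw [← h3]
    refine Real.log_le_log ?_ (by exact_mod_cast h1)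
    have : 0 < ∏ ℓ ∈ T, Ideal.absNorm (Bd L ℓ) :=
      Finset.prod_pos fun ℓ hℓ => (norm_pos (hT ℓ hℓ).ne_zero).2
    exact_mod_cast this
  refine le_trans (le_of_eq ?_) h2
  rw [Nat.cast_prod, Real.log_prod]
  · refine Finset.sum_congr rfl fun ℓ hℓ => ?_
    have h3 := norm_RB (L := L) (hT ℓ hℓ).ne_zero
    obtain ⟨p1, p2⟩ := norm_pos (L := L) (hT ℓ hℓ).ne_zero
    have h4 : Real.log ((Ideal.absNorm (Rd L ℓ) : ℝ) * (Ideal.absNorm (Bd L ℓ) : ℝ)) =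
        Module.finrank ℚ L * Real.log ℓ := by
      rw [← Real.log_pow]
      congr 1
      exact_mod_cast h3
    rw [Real.log_mul (by positivity) (by positivity)] at h4
    linarith
  · intro ℓ hℓ
    have := (norm_pos (L := L) (hT ℓ hℓ).ne_zero).2
    positivity

/-- if all ramification indices are at least `n` -/
theorem Rd_pow {ℓ : ℕ} (hℓ : ℓ.Prime) {n : ℕ} (hn : 1 ≤ n) (h : ∀ P ∈ nf L ℓ, n ≤ cn L ℓ P) :
    Real.log (Ideal.absNorm (Rd L ℓ) : ℝ) ≤ Module.finrank ℚ L * Real.log ℓ / n := by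
  have h1 : Rd L ℓ ^ n ∣ idl L ℓ := by
    rw [← idl_prod hℓ.ne_zero, Rd, ← Finset.prod_pow]
    exact Finset.prod_dvd_prod_of_dvd _ _ fun P hP => pow_dvd_pow _ (h P hP)
  obtain ⟨J, hJ⟩ := h1
  have h2 : Ideal.absNorm (Rd L ℓ) ^ n ∣ ℓ ^ Module.finrank ℚ L :=
    ⟨Ideal.absNorm J, by rw [← map_pow, ← map_mul, ← hJ, norm_idl]⟩
  have h3 := Nat.le_of_dvd (pow_pos hℓ.pos _) h2
  have h4 : (0 : ℝ) < (Ideal.absNorm (Rd L ℓ) : ℝ) := by
    exact_mod_cast (norm_pos (L := L) hℓ.ne_zero).1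
  have h5 : Real.log ((Ideal.absNorm (Rd L ℓ) : ℝ) ^ n) ≤
      Real.log ((ℓ : ℝ) ^ Module.finrank ℚ L) :=
    Real.log_le_log (by positivity) (by exact_mod_cast h3)
  rw [Real.log_pow, Real.log_pow] at h5
  have hn0 : (0 : ℝ) < n := by exact_mod_cast hn
  rw [le_div_iff₀ hn0, mul_comm]
  exact h5

end Pool.Agent.Helper19K9.Ds
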